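import Pool.Agent.R834.HB.Fin

/-!
# A gap theorem for the automorphism groups of dense lattices

`L = A ℤⁿ` is a lattice, `inv A = λ₁(L)² / det(L)^(2/n)` its Hermite invariant, `hermite n = γ_n`.

An endomorphism `F` of `L` is a *multiple projection* with factor `m` if it is `m` times an orthogonal
projection. Examples: the sum of the elements of a group of `m` automorphisms (the image is the
space of the common fixed vectors), elements of the group ring such as multiples of the idempotents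
of the rational characters, and `f(Q)` for an automorphism `Q` and an integral polynomial `f` with
`(Q - 1) f(Q) = 0`, `f(1) = m` (`m = 1` if no eigenvalue of `Q` other than `1` has prime power order).

Let `s` be the smaller one of the dimensions of the image and of the kernel of `F`. Then
`inv A ^ n ≤ m ^ (2 s) γ_s ^ s γ_{n - s} ^ (n - s)`, so that in the lattices whose Hermite invariant is
close to `γ_n`, `s log (2 n / (m² s))` is at most `n` times a constant, which tends to `0` if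
the limit of `γ_n / n` exists. In this case `s ≤ δ n` or `s ≥ (2 / m² - δ) n`.
-/

set_option autoImplicit false

open Filter Matrix Topology

namespace Pool.Agent.Results.MP_ef2672_gt.GapForAutomorphismGroups

open Pool.Agent.H160R3.Herm (hermite)
open Pool.Agent.R834.HA (inv SplitsInto IsAuto)
open Pool.Agent.R834.HB (IsMultProj act IsMultIdem ev minor cyc)

/-- the upper limit of `γ_n / n` -/
noncomputable def upper : ℝ := limsup (fun n : ℕ => hermite n / n) atTop

/-- the lower limit of `γ_n / n` -/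
noncomputable def lower : ℝ := liminf (fun n : ℕ => hermite n / n) atTop

/-- (1) the sum of the elements of a group of automorphisms, and the elements `c` of the group ring
with `c * c = m c` -/
def GroupsGive {n : ℕ} (A : Matrix (Fin n) (Fin n) ℝ) : Prop :=
  ∀ (G : Type) [Group G] [Fintype G] (ρ : G →* Matrix (Fin n) (Fin n) ℝ),
    (∀ g, IsAuto A (ρ g)) →
    (IsMultProj (Fintype.card G) A (act ρ fun _ => 1) ∧
      ∀ x, (∃ y, (act ρ fun _ => 1).mulVec y = x) ↔ ∀ g, (ρ g).mulVec x = x) ∧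
    ∀ (m : ℕ) (c : G → ℤ), IsMultIdem m c → IsMultProj m A (act ρ c)

/-- (2) polynomials in an automorphism -/
def PolynomialsGive {n : ℕ} (A : Matrix (Fin n) (Fin n) ℝ) : Prop :=
  ∀ Q, IsAuto A Q → ∀ (f : Polynomial ℤ) (m : ℕ), 0 < m → (Q - 1) * ev f Q = 0 → f.eval 1 = m →
    IsMultProj m A (ev f Q) ∧ ∀ x, (∃ y, (ev f Q).mulVec y = x) ↔ Q.mulVec x = x

/-- (2) automorphisms all of whose eigenvalues other than `1` are roots of unity the order of which
is not a power of a prime -/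
def NonPrimePowersGive {n : ℕ} (A : Matrix (Fin n) (Fin n) ℝ) : Prop :=
  ∀ Q, IsAuto A Q → ∀ D : Finset ℕ, (∀ d ∈ D, ∀ p : ℕ, p.Prime → ∀ k : ℕ, p ^ k ≠ d) →
    (Q - 1) * ev (cyc D) Q = 0 →
    IsMultProj 1 A (ev (cyc D) Q) ∧ ∀ x, (∃ y, (ev (cyc D) Q).mulVec y = x) ↔ Q.mulVec x = x

/-- (3) the splittings given by multiple projections, and the inequality for the invariant -/
def Splittings {n : ℕ} (A : Matrix (Fin n) (Fin n) ℝ) : Prop :=
  ∀ m : ℕ, 0 < m → ∀ F, IsMultProj m A F →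
    SplitsInto A F.rank ((m : ℝ) ^ F.rank) ∧
    SplitsInto A (n - F.rank) ((m : ℝ) ^ (n - F.rank)) ∧
    inv A ^ n ≤ (m : ℝ) ^ (2 * min F.rank (n - F.rank)) *
      (hermite (n - F.rank) ^ (n - F.rank) * hermite F.rank ^ F.rank)

/-- the inequality for the smaller dimension, with the constant `c` -/
def Bound {n : ℕ} (A : Matrix (Fin n) (Fin n) ℝ) (c : ℝ) : Prop :=
  ∀ m : ℕ, 0 < m → ∀ F, IsMultProj m A F → 0 < minor F →
    (minor F : ℝ) * Real.log (2 * n / (m ^ 2 * minor F)) ≤ c * n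

/-- the gap, for all multiple projections and for all groups of automorphisms -/
def Gap {n : ℕ} (A : Matrix (Fin n) (Fin n) ℝ) (δ : ℝ) : Prop :=
  (∀ m : ℕ, 0 < m → ∀ F, IsMultProj m A F →
    (minor F : ℝ) ≤ δ * n ∨ (2 / m ^ 2 - δ) * n ≤ minor F) ∧
  ∀ (G : Type) [Group G] [Fintype G] (ρ : G →* Matrix (Fin n) (Fin n) ℝ),
    (∀ g, IsAuto A (ρ g)) → (minor (act ρ fun _ => 1) : ℝ) ≤ δ * n ∨
      (2 / (Fintype.card G : ℝ) ^ 2 - δ) * n ≤ minor (act ρ fun _ => 1)

open Pool.Agent.R834.HA Pool.Agent.R834.HB in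
theorem result :
    -- (1), (2), (3)
    (∀ n : ℕ, 0 < n → ∀ A : Matrix (Fin n) (Fin n) ℝ, A.det ≠ 0 →
      GroupsGive A ∧ PolynomialsGive A ∧ NonPrimePowersGive A ∧ Splittings A) ∧
    -- (4) near-optimal lattices of large dimension
    (∀ ε : ℝ, 0 < ε → ∀ κ : ℝ, 0 < κ → ∃ n0 : ℕ, ∀ n ≥ n0,
      ∀ A : Matrix (Fin n) (Fin n) ℝ, A.det ≠ 0 → κ * hermite n ≤ inv A →
      Bound A (Real.log (upper / (κ * lower)) + ε)) ∧
    -- (5) lattices with `inv A ≥ n / (2 π e)` of large dimension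
    (∃ n0 : ℕ, ∀ n ≥ n0, ∀ A : Matrix (Fin n) (Fin n) ℝ, A.det ≠ 0 →
      n / (2 * Real.pi * Real.exp 1) ≤ inv A →
      Bound A (397 / 500 * Real.log 2) ∧ ∀ F, IsMultProj 1 A F → 4 * minor F < n) ∧
    -- (6) if the limit of `γ_n / n` exists
    ((∃ l : ℝ, Tendsto (fun n : ℕ => hermite n / n) atTop (𝓝 l)) →
      ∀ δ : ℝ, 0 < δ → ∃ η : ℝ, 0 < η ∧ ∃ n0 : ℕ, ∀ n ≥ n0,
        ∀ A : Matrix (Fin n) (Fin n) ℝ, A.det ≠ 0 → (1 - η) * hermite n ≤ inv A → Gap A δ) := by
  refine ⟨?_, ?_, ?_, ?_⟩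
  · intro n hn A hA
    refine ⟨?_, ?_, ?_, ?_⟩
    · intro G _ _ ρ hρ
      exact ⟨⟨isMultProj_act ρ hρ isMultIdem_one, act_one_image ρ⟩,
        fun m c hc => isMultProj_act ρ hρ hc⟩
    · intro Q hQ f m hm hf h1
      exact isMultProj_poly hQ f hf hm h1
    · intro Q hQ D hD hf
      exact isMultProj_poly hQ (cyc D) hf one_pos (by rw [cyc_eval D hD, Nat.cast_one])
    · intro m hm F hF
      exact ⟨hF.splits hm hA, hF.splits_compl hm hA, hF.ineq hn hm hA⟩
  · intro ε hε κ hκ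
    obtain ⟨n0, hn0, h0⟩ := near_split hε hκ
    refine ⟨n0, fun n hn A hA hAκ m hm F hF hs => ?_⟩
    have h1 : EntropyBound A (Real.log (upper / (κ * lower)) + ε) := h0 n hn A hA hAκ
    exact explicit (lt_of_lt_of_le hn0 hn) hm hA h1 hF hs
  · obtain ⟨n0, hn0, h0⟩ := numeric_split
    refine ⟨n0, fun n hn A hA hAκ => ?_⟩
    have h1 := h0 n hn A hA hAκ
    have hnpos := lt_of_lt_of_le hn0 hn
    exact ⟨fun m hm F hF hs => explicit hnpos hm hA h1 hF hs, fun F hF => quarter hnpos hA h1 hF⟩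
  · rintro ⟨l, hl⟩ δ hδ
    obtain ⟨η, hη, n0, -, h⟩ := gap_of_limit (L := l) hl hδ
    refine ⟨η, hη, n0, fun n hn A hA hAη => ⟨fun m hm F hF => h n hn A hA hAη m hm F hF, ?_⟩⟩
    intro G _ _ ρ hρ
    exact h n hn A hA hAη _ Fintype.card_pos _ (isMultProj_act ρ hρ isMultIdem_one)

end Pool.Agent.Results.MP_ef2672_gt.GapForAutomorphismGroups
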