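import Pool.Agent.R117.HS.Expl
import Pool.Agent.H160R3.Herm.Lower

/-!
# Dense lattices have few automorphisms with a small moved space

The Hermite invariant of a lattice with endomorphisms of small rank and bounded norm, in
particular with automorphisms `Q` for which the moved space (the image of `Q - 1`) is small.

Proof: let `μ` be the length of the shortest vectors of the lattice `L`, and let the moved spaces of
`Q₁, Q₂, …` (of dimension at most `d`) span the space. Split the space into the orthogonal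
differences `U i` of the successive common kernels of the `Q i - 1`. The convex body of all points
whose components in the `U i` are shorter than `μ / 2` contains no nonzero vector of `L`, since
`Q i - 1` at most doubles lengths; so Minkowski's theorem applies to it.
-/

set_option autoImplicit false

open Module

namespace Pool.Agent.Results.MP_ef2672_gt.SmallMovedSpaces

open Pool.Agent.R117.HS Pool.Agent.H160R3.Herm

/-- `Q` is an automorphism of the lattice `A ℤⁿ`: an orthogonal matrix that maps the lattice into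
itself (and hence onto itself). -/
def IsAuto {n : ℕ} (A Q : Matrix (Fin n) (Fin n) ℝ) : Prop :=
  Q ∈ Matrix.orthogonalGroup (Fin n) ℝ ∧ Preserves A Q

/-- the space of the common fixed vectors -/
noncomputable def fixedSpace {n : ℕ} (S : Set (Matrix (Fin n) (Fin n) ℝ)) :
    Submodule ℝ (Fin n → ℝ) :=
  ⨅ Q ∈ S, LinearMap.ker (Matrix.toLin' (Q - 1))

theorem mem_fixedSpace {n : ℕ} {S : Set (Matrix (Fin n) (Fin n) ℝ)} {x : Fin n → ℝ} :
    x ∈ fixedSpace S ↔ ∀ Q ∈ S, Q.mulVec x = x := by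
  simp only [fixedSpace, Submodule.mem_iInf, LinearMap.mem_ker, Matrix.toLin'_apply,
    Matrix.sub_mulVec, Matrix.one_mulVec, sub_eq_zero]

theorem fixedSpace_eq {n : ℕ} (S : Set (Matrix (Fin n) (Fin n) ℝ)) :
    fixedSpace S = com ((fun Q => Q - 1) '' S) := by
  ext x
  rw [mem_fixedSpace, mem_com]
  constructor
  · rintro h _ ⟨Q, hQ, rfl⟩
    rw [Matrix.sub_mulVec, Matrix.one_mulVec, h Q hQ, sub_self]
  · intro h Q hQ
    have := h _ ⟨Q, hQ, rfl⟩
    rw [Matrix.sub_mulVec, Matrix.one_mulVec, sub_eq_zero] at this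
    exact this

theorem preserves_sub_one {n : ℕ} {A Q : Matrix (Fin n) (Fin n) ℝ} (h : Preserves A Q) :
    Preserves A (Q - 1) := by
  obtain ⟨U, hU⟩ := h
  refine ⟨U - 1, ?_⟩
  have e : (U - 1).map (fun z : ℤ => (z : ℝ)) = U.map (fun z : ℤ => (z : ℝ)) - 1 := by
    ext i j
    by_cases hij : i = j
    · simp [hij]
    · simp [Matrix.one_apply_ne hij]
  rw [e, sub_mul, mul_sub, hU, one_mul, mul_one]

theorem norm_sub_one {n : ℕ} {Q : Matrix (Fin n) (Fin n) ℝ}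
    (hQ : Q ∈ Matrix.orthogonalGroup (Fin n) ℝ) (x : Fin n → ℝ) :
    ∑ j, ((Q - 1).mulVec x) j ^ 2 ≤ 2 ^ 2 * ∑ j, x j ^ 2 := by
  have h1 : ∑ j, (Q.mulVec x) j ^ 2 = ∑ j, x j ^ 2 := by
    have h2 : dotProduct (Q.mulVec x) (Q.mulVec x) = dotProduct x x := by
      rw [Matrix.dotProduct_mulVec, Matrix.vecMul_mulVec, (Matrix.mem_orthogonalGroup_iff' (Fin n) ℝ).1 hQ,
        Matrix.vecMul_one]
    simpa [dotProduct, sq] using h2
  have h3 : ∑ j, ((Q - 1).mulVec x) j ^ 2 ≤ ∑ j, (2 * (Q.mulVec x) j ^ 2 + 2 * x j ^ 2) := by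
    apply Finset.sum_le_sum
    intro j _
    rw [Matrix.sub_mulVec, Matrix.one_mulVec, Pi.sub_apply]
    nlinarith [sq_nonneg ((Q.mulVec x) j + x j)]
  refine h3.trans (le_of_eq ?_)
  rw [Finset.sum_add_distrib, ← Finset.mul_sum, ← Finset.mul_sum, h1]
  ring

/-- the explicit inequality for automorphisms -/
theorem auto_ineq {n : ℕ} (hn : 0 < n) {A : Matrix (Fin n) (Fin n) ℝ} (hA : A.det ≠ 0) {d : ℕ}
    (hd : 0 < d) (S : Set (Matrix (Fin n) (Fin n) ℝ))
    (hS : ∀ Q ∈ S, IsAuto A Q ∧ (Q - 1).rank ≤ d) :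
    ((vr d / 2) ^ (n - finrank ℝ (fixedSpace S)) * om (finrank ℝ (fixedSpace S))) ^ 2 *
        inv A ^ n ≤ 4 ^ n ∧
    (Real.pi * inv A / (n + 3)) ^ n ≤
      (4 * (d + 3) / (n + 3)) ^ (n - finrank ℝ (fixedSpace S)) := by
  have hle : finrank ℝ (fixedSpace S) ≤ n := by
    have := (fixedSpace S).finrank_le
    rwa [finrank_fin_fun] at this
  have hS' : ∀ F ∈ (fun Q => Q - 1) '' S, Preserves A F ∧ F.rank ≤ d ∧
      ∀ x, ∑ j, (F.mulVec x) j ^ 2 ≤ 2 ^ 2 * ∑ j, x j ^ 2 := by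
    rintro _ ⟨Q, hQ, rfl⟩
    exact ⟨preserves_sub_one (hS Q hQ).1.2, (hS Q hQ).2, norm_sub_one (hS Q hQ).1.1⟩
  have hwm : n = (n - finrank ℝ (fixedSpace S)) + finrank ℝ (fixedSpace S) := by omega
  refine ⟨main_set hn hA two_pos hd _ hS' _ _ hwm (by rw [← fixedSpace_eq]), ?_⟩
  have h := explicit hn hA two_pos hd _ hS' _ _ hwm (by rw [← fixedSpace_eq])
  have e : (2 : ℝ) ^ 2 = 4 := by norm_num
  rwa [e] at h

theorem inv_le_of_no_fixed {n : ℕ} (hn : 0 < n) {A : Matrix (Fin n) (Fin n) ℝ} (hA : A.det ≠ 0)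
    {d : ℕ} (hd : 0 < d) (S : Set (Matrix (Fin n) (Fin n) ℝ))
    (hS : ∀ Q ∈ S, IsAuto A Q ∧ (Q - 1).rank ≤ d) (hfix : fixedSpace S = ⊥) :
    inv A ≤ 4 / Real.pi * (d + 3) ∧ inv A ≤ 16 / om d ^ ((2 : ℝ) / d) := by
  have hpi := Real.pi_pos
  have hg := inv_nonneg A
  have hd' : (0 : ℝ) < d := by exact_mod_cast hd
  have h := auto_ineq hn hA hd S hS
  rw [hfix, finrank_bot, Nat.sub_zero, om_zero, mul_one] at h
  constructor
  · have h1 : Real.pi * inv A / (n + 3) ≤ 4 * (d + 3) / (n + 3) :=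
      (pow_le_pow_iff_left₀ (by positivity) (by positivity) hn.ne').1 h.2
    rw [div_le_div_iff_of_pos_right (by positivity)] at h1
    rw [div_mul_eq_mul_div, le_div_iff₀ hpi]
    linarith
  · have hv := vr_pos d
    have h1 : ((vr d / 2) ^ 2 * inv A) ^ n ≤ 4 ^ n := by
      rw [mul_pow, ← pow_mul, mul_comm 2 n, pow_mul]
      exact h.1
    have h2 : (vr d / 2) ^ 2 * inv A ≤ 4 :=
      (pow_le_pow_iff_left₀ (by positivity) (by norm_num) hn.ne').1 h1
    have h3 : om d ^ ((2 : ℝ) / d) = vr d ^ 2 := by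
      unfold vr
      rw [← Real.rpow_natCast, ← Real.rpow_mul (om_pos d).le]
      congr 1
      push_cast
      ring
    rw [h3, le_div_iff₀ (by positivity)]
    nlinarith

theorem eq_zero_of_rank {n : ℕ} {M : Matrix (Fin n) (Fin n) ℝ} (h : M.rank = 0) : M = 0 := by
  have h1 : LinearMap.range M.mulVecLin = ⊥ := Submodule.finrank_eq_zero.1 h
  rw [LinearMap.range_eq_bot] at h1
  apply Matrix.toLin'.injective
  rw [map_zero]
  exact h1

theorem inv_le_of_irreducible {n : ℕ} (hn : 0 < n) {A : Matrix (Fin n) (Fin n) ℝ}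
    (hA : A.det ≠ 0) (G : Subgroup (Matrix.orthogonalGroup (Fin n) ℝ))
    (hG : ∀ g ∈ G, Preserves A (g : Matrix (Fin n) (Fin n) ℝ))
    (hirr : ∀ W : Submodule ℝ (Fin n → ℝ), (∀ g ∈ G, ∀ x ∈ W,
      (g : Matrix (Fin n) (Fin n) ℝ).mulVec x ∈ W) → W = ⊥ ∨ W = ⊤)
    (g : Matrix.orthogonalGroup (Fin n) ℝ) (hg : g ∈ G) (hg1 : g ≠ 1) :
    inv A ≤ 4 / Real.pi * (((g : Matrix (Fin n) (Fin n) ℝ) - 1).rank + 3) ∧
    inv A ≤ 16 / om ((g : Matrix (Fin n) (Fin n) ℝ) - 1).rank ^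
      ((2 : ℝ) / ((g : Matrix (Fin n) (Fin n) ℝ) - 1).rank) := by
  set S : Set (Matrix (Fin n) (Fin n) ℝ) :=
    {M | ∃ h ∈ G, M = ((h * g * h⁻¹ : Matrix.orthogonalGroup (Fin n) ℝ) :
      Matrix (Fin n) (Fin n) ℝ)} with hSd
  have hgM : (g : Matrix (Fin n) (Fin n) ℝ) ≠ 1 := fun h => hg1 (Subtype.ext h)
  have hrk : 0 < ((g : Matrix (Fin n) (Fin n) ℝ) - 1).rank := by
    rw [Nat.pos_iff_ne_zero]
    intro h0
    exact hgM (sub_eq_zero.1 (eq_zero_of_rank h0))
  have hS : ∀ Q ∈ S, IsAuto A Q ∧ (Q - 1).rank ≤ ((g : Matrix (Fin n) (Fin n) ℝ) - 1).rank := by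
    rintro _ ⟨h, hh, rfl⟩
    have hin : h * g * h⁻¹ ∈ G := G.mul_mem (G.mul_mem hh hg) (G.inv_mem hh)
    refine ⟨⟨(h * g * h⁻¹).2, hG _ hin⟩, ?_⟩
    have e : ((h * g * h⁻¹ : Matrix.orthogonalGroup (Fin n) ℝ) : Matrix (Fin n) (Fin n) ℝ) - 1 =
        (h : Matrix (Fin n) (Fin n) ℝ) * ((g : Matrix (Fin n) (Fin n) ℝ) - 1) *
          ((h⁻¹ : Matrix.orthogonalGroup (Fin n) ℝ) : Matrix (Fin n) (Fin n) ℝ) := by
      have h1 : (h : Matrix (Fin n) (Fin n) ℝ) *
          ((h⁻¹ : Matrix.orthogonalGroup (Fin n) ℝ) : Matrix (Fin n) (Fin n) ℝ) = 1 := by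
        have := congrArg (fun y : Matrix.orthogonalGroup (Fin n) ℝ =>
          (y : Matrix (Fin n) (Fin n) ℝ)) (mul_inv_cancel h)
        exact this
      rw [mul_sub, sub_mul, mul_one, h1]
      rfl
    rw [e]
    exact (Matrix.rank_mul_le_left _ _).trans (Matrix.rank_mul_le_right _ _)
  have hfix : fixedSpace S = ⊥ := by
    rcases hirr (fixedSpace S) (by
      intro k hk x hx
      rw [mem_fixedSpace] at hx ⊢
      rintro _ ⟨h, hh, rfl⟩
      have h1 := hx _ ⟨k⁻¹ * h, G.mul_mem (G.inv_mem hk) hh, rfl⟩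
      have e : (((k⁻¹ * h) * g * (k⁻¹ * h)⁻¹ : Matrix.orthogonalGroup (Fin n) ℝ)) =
          k⁻¹ * (h * g * h⁻¹) * k := by group
      rw [e] at h1
      have h2 : ((h * g * h⁻¹ : Matrix.orthogonalGroup (Fin n) ℝ) :
          Matrix (Fin n) (Fin n) ℝ).mulVec ((k : Matrix (Fin n) (Fin n) ℝ).mulVec x) =
          (k : Matrix (Fin n) (Fin n) ℝ).mulVec
            (((k⁻¹ * (h * g * h⁻¹) * k : Matrix.orthogonalGroup (Fin n) ℝ) :
              Matrix (Fin n) (Fin n) ℝ).mulVec x) := by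
        rw [Matrix.mulVec_mulVec, Matrix.mulVec_mulVec]
        congr 1
        have := congrArg (fun y : Matrix.orthogonalGroup (Fin n) ℝ =>
          (y : Matrix (Fin n) (Fin n) ℝ))
          (show (h * g * h⁻¹) * k = k * (k⁻¹ * (h * g * h⁻¹) * k) by group)
        exact this
      rw [h2, h1]) with h | h
    · exact h
    · exfalso
      apply hgM
      have h1 : ∀ x : Fin n → ℝ, (g : Matrix (Fin n) (Fin n) ℝ).mulVec x = x := by
        intro x
        have hx : x ∈ fixedSpace S := by rw [h]; trivial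
        rw [mem_fixedSpace] at hx
        exact hx _ ⟨1, G.one_mem, by simp⟩
      apply Matrix.toLin'.injective
      apply LinearMap.ext
      intro x
      rw [Matrix.toLin'_apply, h1 x, Matrix.toLin'_one]
      rfl
  exact inv_le_of_no_fixed hn hA hrk S hS hfix

theorem log_form {n : ℕ} (hn : 0 < n) {A : Matrix (Fin n) (Fin n) ℝ} (hA : A.det ≠ 0) {d : ℕ}
    (hd : 0 < d) (S : Set (Matrix (Fin n) (Fin n) ℝ))
    (hS : ∀ Q ∈ S, IsAuto A Q ∧ (Q - 1).rank ≤ d) {θ : ℝ} (hθ : 0 < θ) (h : θ * n ≤ inv A) :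
    ((n - finrank ℝ (fixedSpace S) : ℕ) : ℝ) * Real.log ((n + 3) / (4 * (d + 3))) ≤
      n * Real.log (2 / θ) := by
  have hn' : (1 : ℝ) ≤ n := by exact_mod_cast hn
  have hd' : (0 : ℝ) < d := by exact_mod_cast hd
  have h1 := (auto_ineq hn hA hd S hS).2
  have h2 : θ / 2 ≤ Real.pi * inv A / (n + 3) := by
    rw [le_div_iff₀ (by positivity)]
    have h3 := Real.pi_gt_three
    have h4 := inv_nonneg A
    nlinarith [mul_le_mul_of_nonneg_left h (by linarith : (0 : ℝ) ≤ 2),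
      mul_nonneg (by linarith : 0 ≤ Real.pi - 3) h4, mul_pos hθ (by linarith : (0 : ℝ) < n)]
  have h3 : (θ / 2) ^ n ≤ (4 * ((d : ℝ) + 3) / (n + 3)) ^ (n - finrank ℝ (fixedSpace S)) :=
    (pow_le_pow_left₀ (by positivity) h2 n).trans h1
  have h4 := Real.log_le_log (by positivity) h3
  rw [Real.log_pow, Real.log_pow] at h4
  have e1 : Real.log (θ / 2) = - Real.log (2 / θ) := by
    rw [← Real.log_inv, inv_div]
  have e2 : Real.log (4 * ((d : ℝ) + 3) / (n + 3)) = - Real.log ((n + 3) / (4 * (d + 3))) := by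
    rw [← Real.log_inv, inv_div]
  rw [e1, e2] at h4
  linarith

/-- The Hermite invariant `inv A = λ₁(L)² / det(L)^(2/n)` of a lattice `L = A ℤⁿ` with endomorphisms
of small rank and norm, and with automorphisms of small moved space. `om r` is the volume of the unit
ball of `ℝ^r`, `vr d = (om d)^(1/d)`. -/
theorem result :
    ∀ n : ℕ, 0 < n → ∀ A : Matrix (Fin n) (Fin n) ℝ, A.det ≠ 0 →
    -- endomorphisms of `L` of rank at most `d` and norm at most `c`; `com S` is the common kernel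
    (∀ c : ℝ, 0 < c → ∀ d : ℕ, 0 < d → ∀ S : Set (Matrix (Fin n) (Fin n) ℝ),
      (∀ F ∈ S, Preserves A F ∧ F.rank ≤ d ∧
        ∀ x, ∑ j, (F.mulVec x) j ^ 2 ≤ c ^ 2 * ∑ j, x j ^ 2) →
      ((vr d / c) ^ (n - finrank ℝ (com S)) * om (finrank ℝ (com S))) ^ 2 * inv A ^ n ≤ 4 ^ n ∧
      (Real.pi * inv A / (n + 3)) ^ n ≤
        (c ^ 2 * (d + 3) / (n + 3)) ^ (n - finrank ℝ (com S))) ∧
    -- automorphisms `Q` of `L` with `rank (Q - 1) ≤ d`
    (∀ d : ℕ, 0 < d → ∀ S : Set (Matrix (Fin n) (Fin n) ℝ),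
      (∀ Q ∈ S, IsAuto A Q ∧ (Q - 1).rank ≤ d) →
      ((vr d / 2) ^ (n - finrank ℝ (fixedSpace S)) * om (finrank ℝ (fixedSpace S))) ^ 2 *
        inv A ^ n ≤ 4 ^ n ∧
      (Real.pi * inv A / (n + 3)) ^ n ≤
        (4 * (d + 3) / (n + 3)) ^ (n - finrank ℝ (fixedSpace S)) ∧
      (fixedSpace S = ⊥ →
        inv A ≤ 4 / Real.pi * (d + 3) ∧ inv A ≤ 16 / om d ^ ((2 : ℝ) / d)) ∧
      (∀ θ : ℝ, 0 < θ → θ * n ≤ inv A →
        ((n - finrank ℝ (fixedSpace S) : ℕ) : ℝ) * Real.log ((n + 3) / (4 * (d + 3))) ≤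
          n * Real.log (2 / θ)) ∧
      (∀ κ : ℝ, 0 < κ → κ * hermite n ≤ inv A →
        ((n - finrank ℝ (fixedSpace S) : ℕ) : ℝ) * Real.log ((n + 3) / (4 * (d + 3))) ≤
          n * Real.log (288 / κ))) ∧
    -- irreducible groups of automorphisms
    (∀ G : Subgroup (Matrix.orthogonalGroup (Fin n) ℝ),
      (∀ g ∈ G, Preserves A (g : Matrix (Fin n) (Fin n) ℝ)) →
      (∀ W : Submodule ℝ (Fin n → ℝ), (∀ g ∈ G, ∀ x ∈ W,
        (g : Matrix (Fin n) (Fin n) ℝ).mulVec x ∈ W) → W = ⊥ ∨ W = ⊤) →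
      ∀ g ∈ G, g ≠ 1 →
        inv A ≤ 4 / Real.pi * (((g : Matrix (Fin n) (Fin n) ℝ) - 1).rank + 3) ∧
        inv A ≤ 16 / om ((g : Matrix (Fin n) (Fin n) ℝ) - 1).rank ^
          ((2 : ℝ) / ((g : Matrix (Fin n) (Fin n) ℝ) - 1).rank) ∧
        (∀ κ : ℝ, 0 < κ → κ * hermite n ≤ inv A →
          κ * n ≤ 184 * (((g : Matrix (Fin n) (Fin n) ℝ) - 1).rank + 3))) := by
  intro n hn A hA
  have hn' : (0 : ℝ) < n := by exact_mod_cast hn
  have hpi := Real.pi_pos
  refine ⟨?_, ?_, ?_⟩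
  · intro c hc d hd S hS
    have hle : finrank ℝ (com S) ≤ n := by
      have := (com S).finrank_le
      rwa [finrank_fin_fun] at this
    have hwm : n = (n - finrank ℝ (com S)) + finrank ℝ (com S) := by omega
    exact ⟨main_set hn hA hc hd S hS _ _ hwm rfl, explicit hn hA hc hd S hS _ _ hwm rfl⟩
  · intro d hd S hS
    have h := auto_ineq hn hA hd S hS
    refine ⟨h.1, h.2, inv_le_of_no_fixed hn hA hd S hS,
      fun θ hθ hle => log_form hn hA hd S hS hθ hle, fun κ hκ hle => ?_⟩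
    have h1 := hermite_ge hn
    have h2 := log_form hn hA hd S hS (θ := κ / 144) (by positivity)
      (le_trans (by nlinarith) hle)
    have e : 2 / (κ / 144) = 288 / κ := by
      field_simp
      norm_num
    rwa [e] at h2
  · intro G hG hirr g hg hg1
    have h := inv_le_of_irreducible hn hA G hG hirr g hg hg1
    refine ⟨h.1, h.2, fun κ hκ hle => ?_⟩
    have h1 := hermite_ge hn
    have h2 : κ * (n / 144) ≤ 4 / Real.pi * (((g : Matrix (Fin n) (Fin n) ℝ) - 1).rank + 3) :=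
      (mul_le_mul_of_nonneg_left h1 hκ.le).trans (hle.trans h.1)
    rw [div_mul_eq_mul_div, le_div_iff₀ hpi] at h2
    have h3 := Real.pi_gt_d2
    have h4 : 0 ≤ κ * n := by positivity
    nlinarith

end Pool.Agent.Results.MP_ef2672_gt.SmallMovedSpaces
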