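import Pool.Agent.R834.HA.Cor

/-!
# Dense lattices: orthogonal splittings of sublattices and automorphisms of prime order

`L = A ℤⁿ` is a lattice, `inv A = λ₁(L)² / det(L)^(2/n)` its Hermite invariant, `hermite n = γ_n`.

* If `L` has a sublattice of index `k` which is the orthogonal sum of lattices of dimensions `d_i`,
  then `inv A ^ n ≤ k² ∏ γ_{d_i} ^ d_i`.
* An endomorphism `F` of `L` whose kernel is orthogonal to its image (for example a normal matrix)
  gives such a sublattice, with `k` the absolute value of the determinant of `F` on `F L`.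
* For an automorphism `Q` of prime order `p` which moves `b` dimensions (`b = rank (1 - Q)`,
  `a = n - b` the dimension of the fixed space) one can take `k ≤ p ^ (b / (p - 1))` (from `1 - Q`)
  and `k = p ^ a` (from `1 + Q + ... + Q ^ (p - 1)`).

Since `log (n ^ n / (a ^ a b ^ b))` is `n` times the entropy of `b / n`, lattices with `inv A`
comparable with `γ_n` have no splitting of small index into pieces of proportional dimensions. If the
limit of `γ_n / n` exists, then in the asymptotically optimal lattices every involution fixes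
asymptotically `0`, `n / 2` or `n` dimensions, every automorphism of large prime order fixes
asymptotically `0` or `n` dimensions, and a splitting of subexponential index has a piece of
asymptotically full dimension.
-/

set_option autoImplicit false

open Filter Matrix Topology

namespace Pool.Agent.Results.MP_ef2672_gt.SplittingsAndPrimeOrder

open Pool.Agent.H160R3.Herm (hermite)
open Pool.Agent.R834.HA (inv dims SplitsInto IsAuto glue EntropyBound rangeDet)

/-- `F` is an endomorphism of the lattice `A ℤⁿ` with the integral matrix `U`, and the kernel of `F`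
is orthogonal to its image. -/
def IsNormalEndo {n : ℕ} (A F : Matrix (Fin n) (Fin n) ℝ) (U : Matrix (Fin n) (Fin n) ℤ) : Prop :=
  F * A = A * U.map (fun z : ℤ => (z : ℝ)) ∧ ∀ x, F.mulVec x = 0 → Fᵀ.mulVec x = 0

/-- the determinant of the endomorphism `U` of `ℤⁿ` on its image -/
noncomputable def imageDet {n : ℕ} (U : Matrix (Fin n) (Fin n) ℤ) : ℤ :=
  rangeDet (Matrix.toLin' U)

/-- the upper limit of `γ_n / n` -/
noncomputable def upper : ℝ := limsup (fun n : ℕ => hermite n / n) atTop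

/-- the lower limit of `γ_n / n` -/
noncomputable def lower : ℝ := liminf (fun n : ℕ => hermite n / n) atTop

/-- the entropy inequality with the constant `c` for all automorphisms of prime order -/
def PrimeBound {n : ℕ} (A : Matrix (Fin n) (Fin n) ℝ) (c : ℝ) : Prop :=
  ∀ p : ℕ, p.Prime → ∀ Q, IsAuto A Q → Q ^ p = 1 →
    Real.binEntropy (((1 - Q).rank : ℝ) / n) ≤ c + glue p (((1 - Q).rank : ℝ) / n)

/-- (1) an orthogonal sum with any number of pieces: the columns of `B` are a basis of a sublattice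
of index `|det B|` (in the coordinates given by `A`), columns of different colours are orthogonal -/
def ManyPieces {n : ℕ} (A : Matrix (Fin n) (Fin n) ℝ) : Prop :=
  ∀ (r : ℕ) (B : Matrix (Fin n) (Fin n) ℤ) (blk : Fin n → Fin r), B.det ≠ 0 →
    (∀ x y, blk x ≠ blk y →
      ((A * B.map (fun z : ℤ => (z : ℝ)))ᵀ * (A * B.map (fun z : ℤ => (z : ℝ)))) x y = 0) →
    inv A ^ n ≤ (B.det : ℝ) ^ 2 * ∏ i, hermite (dims blk i) ^ dims blk i ∧
    ∀ d : ℕ, (∀ i, dims blk i ≤ d) → inv A ^ n ≤ (B.det : ℝ) ^ 2 * (d : ℝ) ^ n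

/-- (2) endomorphisms, and (3) automorphisms of prime order, give splittings -/
def GiveSplittings {n : ℕ} (A : Matrix (Fin n) (Fin n) ℝ) : Prop :=
  (∀ F U, IsNormalEndo A F U → imageDet U ≠ 0 ∧ SplitsInto A F.rank |(imageDet U : ℝ)|) ∧
  (∀ p : ℕ, p.Prime → ∀ Q, IsAuto A Q → Q ^ p = 1 →
    (∃ k : ℕ, k ^ (p - 1) ≤ p ^ (1 - Q).rank ∧ SplitsInto A (1 - Q).rank k) ∧
    SplitsInto A (n - (1 - Q).rank) ((p : ℝ) ^ (n - (1 - Q).rank)))

/-- (6) what holds if the limit of `γ_n / n` exists -/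
def LimitConsequences : Prop :=
  ∀ δ : ℝ, 0 < δ → ∃ η : ℝ, 0 < η ∧ ∃ P n0 : ℕ, ∀ n ≥ n0,
    ∀ A : Matrix (Fin n) (Fin n) ℝ, A.det ≠ 0 → (1 - η) * hermite n ≤ inv A →
    (∀ (b : ℕ) (k : ℝ), SplitsInto A b k → k ≤ Real.exp (η * n) →
      (b : ℝ) ≤ δ * n ∨ (1 - δ) * n ≤ b) ∧
    (∀ Q, IsAuto A Q → Q ^ 2 = 1 → ((1 - Q).rank : ℝ) ≤ δ * n ∨
      |((1 - Q).rank : ℝ) - n / 2| ≤ δ * n ∨ (1 - δ) * n ≤ (1 - Q).rank) ∧
    (∀ p : ℕ, p.Prime → P ≤ p → ∀ Q, IsAuto A Q → Q ^ p = 1 →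
      ((1 - Q).rank : ℝ) ≤ δ * n ∨ (1 - δ) * n ≤ (1 - Q).rank)

open Pool.Agent.R834.HA in
theorem result :
    -- (1), (2), (3)
    (∀ n : ℕ, 0 < n → ∀ A : Matrix (Fin n) (Fin n) ℝ, A.det ≠ 0 →
      ManyPieces A ∧ GiveSplittings A ∧ ∀ (b : ℕ) (k : ℝ), SplitsInto A b k →
        inv A ^ n ≤ k ^ 2 * (hermite (n - b) ^ (n - b) * hermite b ^ b)) ∧
    -- (4) near-optimal lattices of large dimension
    (∀ ε : ℝ, 0 < ε → ∀ κ : ℝ, 0 < κ → ∃ n0 : ℕ, ∀ n ≥ n0,
      ∀ A : Matrix (Fin n) (Fin n) ℝ, A.det ≠ 0 → κ * hermite n ≤ inv A →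
      EntropyBound A (Real.log (upper / (κ * lower)) + ε) ∧
      PrimeBound A (Real.log (upper / (κ * lower)) + ε)) ∧
    -- (5) lattices with `inv A ≥ n / (2 π e)` of large dimension
    (∃ n0 : ℕ, ∀ n ≥ n0, ∀ A : Matrix (Fin n) (Fin n) ℝ, A.det ≠ 0 →
      n / (2 * Real.pi * Real.exp 1) ≤ inv A →
      EntropyBound A (397 / 500 * Real.log 2) ∧ PrimeBound A (397 / 500 * Real.log 2) ∧
      ∀ p : ℕ, p.Prime → 23 ≤ p → ∀ Q, IsAuto A Q → Q ^ p = 1 → 2 * (1 - Q).rank ≠ n) ∧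
    -- (6) if the limit of `γ_n / n` exists
    ((∃ l : ℝ, Tendsto (fun n : ℕ => hermite n / n) atTop (𝓝 l)) → LimitConsequences) := by
  refine ⟨?_, ?_, ?_, ?_⟩
  · intro n hn A hA
    refine ⟨?_, ⟨?_, ?_⟩, fun b k hs => (hs.ineq hn hA).2.2⟩
    · intro r B blk hB horth
      exact ⟨split_ineq hn A hA B hB blk horth,
        fun d hd => small_pieces hn A hA B hB blk horth d hd⟩
    · intro F U hF
      obtain ⟨h1, -, -, h2⟩ := endo_ineq A F hA U hF.1 hF.2
      exact ⟨h1, h2⟩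
    · intro p hp Q hQ hQp
      exact ⟨prime_one A Q hA hQ hp hQp, prime_two A Q hA hQ hp hQp⟩
  · intro ε hε κ hκ
    obtain ⟨n0, hn0, h0⟩ := near_split hε hκ
    refine ⟨n0, fun n hn A hA hAκ => ?_⟩
    have h1 : EntropyBound A (Real.log (upper / (κ * lower)) + ε) := h0 n hn A hA hAκ
    exact ⟨h1, fun p hp Q hQ hQp => h1.prime (lt_of_lt_of_le hn0 hn) hA hp hQ hQp⟩
  · obtain ⟨n0, hn0, h0⟩ := numeric_split
    refine ⟨n0, fun n hn A hA hAκ => ?_⟩
    have h1 := h0 n hn A hA hAκ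
    have hnpos := lt_of_lt_of_le hn0 hn
    exact ⟨h1, fun p hp Q hQ hQp => h1.prime hnpos hA hp hQ hQp,
      fun p hp h23 Q hQ hQp => half hnpos hA h1 hp h23 hQ hQp⟩
  · rintro ⟨l, hl⟩ δ hδ
    obtain ⟨η, hη, P, n0, -, h⟩ := of_limit (L := l) hl hδ
    exact ⟨η, hη, P, n0, h⟩

end Pool.Agent.Results.MP_ef2672_gt.SplittingsAndPrimeOrder
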