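import Pool.Agent.R873.TL.Near

/-!
# MP_ef2672_gt: Hermite's constant for tensor products of lattices

`herm A = min² / det^(2/n)` is the Hermite invariant of the lattice `A ℤⁿ`, `A ⊗ₖ B` (Kronecker
product) gives the tensor product of the lattices of `A` and `B`, and `tau n` is the supremum of the
Hermite invariants of all tensor products, of dimension `n`, of two lattices of dimensions at least
two: the analogue of `γ_n = hermite n` for these lattices.

The loss is exactly the factor `√3` in the upper limit, and the question whether `γ_n / n` converges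
is equivalent to the same question for tensor products, in even dimensions.
-/

set_option autoImplicit false

open Filter Matrix Topology
open scoped Kronecker

namespace Pool.Agent.Results.MP_ef2672_gt.TensorProductLattices

open Pool.Agent.H160R3.Herm (hermite)
open Pool.Agent.R873.TL (herm hex tau)

/-- the upper limit of `γ_n / n` -/
noncomputable def gammaSup : ℝ := limsup (fun n : ℕ => hermite n / n) atTop

theorem result :
    -- (1) tensor products, and tensor products with the hexagonal lattice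
    (∀ a b : ℕ, 0 < a → 0 < b → ∀ (A : Matrix (Fin a) (Fin a) ℝ) (B : Matrix (Fin b) (Fin b) ℝ),
      herm (A ⊗ₖ B) ≤ herm A * herm B ∧ herm (hex ⊗ₖ B) = 2 / √3 * herm B) ∧
    -- (2) bounds, exact for twice a prime
    (∀ k : ℕ, 2 ≤ k → 2 / √3 * hermite k ≤ tau (2 * k)) ∧
    (∀ p : ℕ, p.Prime → tau (2 * p) = 2 / √3 * hermite p) ∧
    -- (3) the upper limits
    limsup (fun n : ℕ => tau n / n) atTop =
      1 / √3 * gammaSup ∧
    -- (4) the existence of the limit
    (∀ L : ℝ, Tendsto (fun n : ℕ => hermite n / n) atTop (𝓝 L) ↔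
      Tendsto (fun k : ℕ => tau (2 * k) / ((2 * k : ℕ) : ℝ)) atTop (𝓝 (1 / √3 * L))) ∧
    ((∃ L : ℝ, Tendsto (fun n : ℕ => hermite n / n) atTop (𝓝 L)) ↔
      ∃ T : ℝ, Tendsto (fun k : ℕ => tau (2 * k) / ((2 * k : ℕ) : ℝ)) atTop (𝓝 T)) ∧
    -- (5) asymptotically optimal tensor products
    (∀ ε : ℝ, 0 < ε → ∃ δ : ℝ, 0 < δ ∧ ∃ N : ℕ, ∀ n ≥ N, ∀ a b : ℕ, 2 ≤ a → a ≤ b → a * b = n →
      ∀ (A : Matrix (Fin a) (Fin a) ℝ) (B : Matrix (Fin b) (Fin b) ℝ), A.det ≠ 0 → B.det ≠ 0 →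
        (1 - δ) * (1 / √3 * gammaSup) * n ≤ herm (A ⊗ₖ B) →
        a = 2 ∧ (1 - ε) * (2 / √3) ≤ herm A ∧ (1 - ε) * gammaSup * b ≤ herm B) ∧
    -- (6) both factors of large dimension
    (∀ ε : ℝ, 0 < ε → ∃ K : ℕ, ∀ a b : ℕ, K ≤ a → K ≤ b →
      ∀ (A : Matrix (Fin a) (Fin a) ℝ) (B : Matrix (Fin b) (Fin b) ℝ), A.det ≠ 0 → B.det ≠ 0 →
        herm (A ⊗ₖ B) ≤ (gammaSup ^ 2 + ε) * (a * b)) ∧
    gammaSup ≤ 1 / Real.pi ^ 2 ∧
    -- (7) tensor products are below the Minkowski-Hlawka bound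
    (∀ᶠ n : ℕ in atTop, tau n ≤ 9995 / 10000 * (n / (2 * Real.pi * Real.exp 1))) := by
  refine ⟨?_, fun k hk => Pool.Agent.R873.TL.le_tau_two_mul hk,
    fun p hp => Pool.Agent.R873.TL.tau_two_prime hp, Pool.Agent.R873.TL.limsup_tau,
    Pool.Agent.R873.TL.tendsto_iff, ?_, fun ε hε => Pool.Agent.R873.TL.near_opt hε,
    fun ε hε => Pool.Agent.R873.TL.both_large hε, Pool.Agent.R873.TL.upper_le,
    Pool.Agent.R873.TL.below_mh⟩
  · intro a b ha hb A B
    have := Pool.Agent.R873.TL.nonempty_fin ha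
    have := Pool.Agent.R873.TL.nonempty_fin hb
    exact ⟨Pool.Agent.R873.TL.herm_kron A B, Pool.Agent.R873.TL.hex_kron_eq hb B⟩
  · constructor
    · rintro ⟨L, hL⟩
      exact ⟨_, (Pool.Agent.R873.TL.tendsto_iff L).1 hL⟩
    · rintro ⟨T, hT⟩
      have h3 : 0 < √(3 : ℝ) := Real.sqrt_pos.2 (by norm_num)
      refine ⟨√3 * T, (Pool.Agent.R873.TL.tendsto_iff (√3 * T)).2 ?_⟩
      have e : 1 / √3 * (√3 * T) = T := by field_simp
      rw [e]
      exact hT

end Pool.Agent.Results.MP_ef2672_gt.TensorProductLattices
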